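import Pool.Agent.W_MP_68f289_gt.Crit
import Pool.Agent.W_68f289_h94.Main
import Pool.Agent.W_68f289_h94.IpHam58

/-!
Criteria for the simplicity of the group of Hamiltonian homeomorphisms of the ball.
-/

open Set Metric Topology Filter

namespace Pool.Agent.W_68f289_h51n

open Pool.Agent.W_MP_68f289_gt

variable {n : ℕ}

/-- there are Hamiltonian diffeomorphisms which do not commute -/
theorem exists_noncomm (hn : 1 ≤ n) : ∃ a b : G n, IsHam n (a : E n ≃ₜ E n) ∧
    IsHam n (b : E n ≃ₜ E n) ∧ a * b * a⁻¹ * b⁻¹ ≠ 1 := by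
  obtain ⟨w, hw⟩ := Pool.Agent.W_68f289_h94.exists_half hn
  have hw0 : w ≠ 0 := by
    intro h
    rw [h, en_zero] at hw
    norm_num at hw
  have hKB : CB n (1 / 8) ⊆ Bl n := CB_sub (by norm_num) (by norm_num)
  have hw1 : ∀ x ∈ CB n (1 / 8), x + w ∈ Bl n := by
    intro x hx
    rw [mem_CB (by norm_num)] at hx
    rw [mem_Bl]
    have := en_add x w
    linarith
  obtain ⟨u, hu, hux⟩ := Pool.Agent.W_68f289_h94.exists_trans (isCompact_CB (1 / 8)) hKB w hw1
  have h8 : (1 / 8 : ℝ) ≠ 0 := by norm_num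
  have hv := isHam_aff hu 0 (1 / 8) h8 (by
    intro x hx
    rw [mem_Bl] at hx ⊢
    rw [zero_add, en_smul, abs_of_pos (by norm_num : (0 : ℝ) < 1 / 8)]
    linarith)
  set v : E n ≃ₜ E n := aff 0 (1 / 8) h8 * u * (aff 0 (1 / 8) h8)⁻¹ with hvdef
  have hvx : ∀ x, v x = (1 / 8 : ℝ) • u ((1 / 8 : ℝ)⁻¹ • x) := by
    intro x
    change aff 0 (1 / 8) h8 (u ((aff 0 (1 / 8) h8)⁻¹ x)) = _
    rw [aff_apply, aff_inv_apply, zero_add, sub_zero]
  refine ⟨⟨u, big_HamBar.ham u hu⟩, ⟨v, big_HamBar.ham v hv⟩, hu, hv, fun h => ?_⟩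
  have h1 : u * v = v * u := by
    have h2 : u * v * u⁻¹ * v⁻¹ = 1 := congrArg Subtype.val h
    rw [mul_inv_eq_one, mul_inv_eq_iff_eq_mul] at h2
    exact h2
  have h3 : u (v 0) = v (u 0) := congrArg (fun g : E n ≃ₜ E n => g 0) h1
  have h0 : (0 : E n) ∈ CB n (1 / 8) := by
    rw [mem_CB (by norm_num), en_zero]
    norm_num
  have hu0 : u 0 = w := by rw [hux 0 h0, zero_add]
  have hv0 : v 0 = (1 / 8 : ℝ) • w := by
    rw [hvx, smul_zero, hu0]
  have hw8 : (1 / 8 : ℝ) • w ∈ CB n (1 / 8) := by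
    rw [mem_CB (by norm_num), en_smul, hw, abs_of_pos (by norm_num : (0 : ℝ) < 1 / 8)]
    norm_num
  have huw : u ((1 / 8 : ℝ)⁻¹ • w) = (1 / 8 : ℝ)⁻¹ • w := by
    obtain ⟨K, _, hKB, hoff⟩ := big_HamBar.supp u (big_HamBar.ham u hu)
    refine hoff _ fun hx => ?_
    have h5 := mem_Bl.1 (hKB hx)
    rw [en_smul, hw] at h5
    norm_num at h5
  have hvw : v w = w := by
    rw [hvx, huw, smul_inv_smul₀ h8]
  rw [hv0, hu0, hvw, hux _ hw8] at h3
  have h4 : (1 / 8 : ℝ) • w = 0 := by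
    have h6 : (1 / 8 : ℝ) • w + w = 0 + w := by rw [h3, zero_add]
    exact add_right_cancel h6
  rcases smul_eq_zero.1 h4 with h7 | h7
  · norm_num at h7
  · exact hw0 h7

/-- a countable set whose normal closure has countable index -/
theorem normalClosure_top {T : Set (G n)} (hT : T.Countable)
    (hc : Countable (G n ⧸ Subgroup.normalClosure T)) : Subgroup.normalClosure T = ⊤ := by
  rw [← closure_Conj]
  exact (bdd_Conj hT hc).top

/-- criteria for simplicity -/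
theorem simple_tfae (hn : 1 ≤ n) : [IsSimpleGroup (G n),
    ∃ T : Set (G n), T.Finite ∧ Countable (G n ⧸ Subgroup.normalClosure T),
    ∃ h : G n, h ≠ 1 ∧ (∃ a b : G n, IsHam n (a : E n ≃ₜ E n) ∧ IsHam n (b : E n ≃ₜ E n) ∧
      h = a * b * a⁻¹ * b⁻¹) ∧ Countable (G n ⧸ Subgroup.normalClosure {h}),
    ∀ h : G n, h ≠ 1 → BddGen n (Conj {h})].TFAE := by
  obtain ⟨I⟩ := Pool.Agent.W_68f289_h94.ipHam58 hn
  have h0 : IsSimpleGroup (G n) ↔ ∃ T : Set (G n), T.Finite ∧ Subgroup.normalClosure T = ⊤ :=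
    (Pool.Agent.W_68f289_h94.main hn _ I).1.out 0 1
  tfae_have 1 → 4 := by
    intro hs h hh
    refine bdd_Conj (countable_singleton h) ?_
    have h1 : Subgroup.normalClosure {h} = ⊤ := by
      have hN : (Subgroup.normalClosure {h}).Normal := Subgroup.normalClosure_normal
      refine (hs.eq_bot_or_eq_top_of_normal _ hN).resolve_left fun hb => hh ?_
      have h2 : h ∈ Subgroup.normalClosure {h} := Subgroup.subset_normalClosure rfl
      rw [hb, Subgroup.mem_bot] at h2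
      exact h2
    rw [h1]
    exact countable_top
  tfae_have 4 → 3 := by
    intro h4
    obtain ⟨a, b, ha, hb, hab⟩ := exists_noncomm hn
    refine ⟨_, hab, ⟨a, b, ha, hb, rfl⟩, ?_⟩
    have h1 := (h4 _ hab).top
    rw [closure_Conj] at h1
    rw [h1]
    exact countable_top
  tfae_have 3 → 2 := by
    rintro ⟨h, _, _, hc⟩
    exact ⟨{h}, finite_singleton h, hc⟩
  tfae_have 2 → 1 := by
    rintro ⟨T, hT, hc⟩
    exact h0.2 ⟨T, hT, normalClosure_top hT.countable hc⟩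
  tfae_finish

end Pool.Agent.W_68f289_h51n
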