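import Pool.Agent.W_MP_68f289_gt.Crit
import Pool.Agent.W_68f289_h51m.Nm

/-!
Subgroups of the group of Hamiltonian homeomorphisms of the ball which are generated by continuous
images of Polish spaces: they are the whole group if they are not meagre.
-/

open Set Metric Topology Filter

namespace Pool.Agent.W_68f289_h51n

open Pool.Agent.W_MP_68f289_gt

variable {n : ℕ} {R : ℝ}

/-- the elements of `N` in the space `XR n R` of limits of Hamiltonian diffeomorphisms of the closed
ball of radius `R` -/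
def NX {n : ℕ} (N : Subgroup (G n)) (R : ℝ) : Set ↥(Pool.Agent.W_68f289_h51.XR n R) :=
  {f | ∃ g ∈ N, ∀ x, f.1 x = (g : E n ≃ₜ E n) x}

/-- the elements of `N` in the Polish group -/
def NP (N : Subgroup (G n)) (R : ℝ) : Set ↥((Gn n R).map (res (n := n))) :=
  {p | ∃ g ∈ N, res g = p.1}

theorem res_eq (g : G n) : Pool.Agent.W_68f289_h51.res g = res g := rfl

theorem meagre_iff (hR0 : 0 ≤ R) (hR1 : R < 1) (N : Subgroup (G n)) :
    IsMeagre (NX N R) ↔ IsMeagre (NP N R) := by
  obtain ⟨Ψ, hΨ⟩ := Pool.Agent.W_68f289_h51.exists_homeo (n := n) hR0 hR1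
  have key : Ψ ⁻¹' (NX N R) = NP N R := by
    ext p
    obtain ⟨g, hg, hgp, hgf⟩ := hΨ p
    constructor
    · rintro ⟨h, hh, hf⟩
      refine ⟨g, ?_, hgp⟩
      have e : g = h := by
        apply Subtype.ext
        ext1 x
        rw [← hf x, ← hgf]
        rfl
      rw [e]
      exact hh
    · rintro ⟨h, hh, hhp⟩
      have e : h = g := res_inj (hhp.trans hgp.symm)
      refine ⟨g, e ▸ hh, fun x => ?_⟩
      rw [← hgf]
      rfl
  constructor
  · intro h
    rw [← key]
    exact h.preimage_of_isOpenMap Ψ.continuous Ψ.isOpenMap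
  · intro h
    have h1 := h.preimage_of_isOpenMap Ψ.symm.continuous Ψ.symm.isOpenMap
    rw [← key, ← preimage_comp] at h1
    simpa using h1

/-- a subgroup of countable index is not meagre -/
theorem nonmeagre_of_countable {N : Subgroup (G n)} (hc : Countable (G n ⧸ N)) (hR0 : 0 ≤ R)
    (hR1 : R < 1) : ¬ IsMeagre (NX N R) := by
  rw [meagre_iff hR0 hR1]
  intro hM
  obtain ⟨T, hT, hTc⟩ := exists_reps hc R
  have hTc' : Countable T := hT.to_subtype
  obtain ⟨t, ht⟩ := Pool.Agent.W_68f289_h51.exists_nonmeagre (ι := T)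
    ((Gn n R).map (res (n := n))) (closed_Gn hR0 hR1)
    (fun t => {h | ∃ ht : res t.1 ∈ (Gn n R).map (res (n := n)),
      h ∈ (fun h : ↥((Gn n R).map (res (n := n))) => ⟨res t.1, ht⟩ * h) '' NP N R}) (by
      rintro ⟨_, h, hh, rfl⟩
      obtain ⟨t, htT, htG, htN⟩ := hTc h hh
      refine ⟨⟨t, htT⟩, ⟨t, htG, rfl⟩, ⟨res (t⁻¹ * h), ⟨t⁻¹ * h, ?_, rfl⟩⟩, ⟨t⁻¹ * h, htN, rfl⟩, ?_⟩
      · exact (Gn n R).mul_mem ((Gn n R).inv_mem htG) hh
      · apply Subtype.ext
        show res t * res (t⁻¹ * h) = res h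
        rw [← map_mul, mul_inv_cancel_left])
  apply ht
  by_cases htH : res t.1 ∈ (Gn n R).map (res (n := n))
  · have h2 : IsMeagre ((fun h : ↥((Gn n R).map (res (n := n))) => ⟨res t.1, htH⟩ * h) '' NP N R) :=
      (Homeomorph.mulLeft (⟨res t.1, htH⟩ : ↥((Gn n R).map (res (n := n))))).isInducing.isMeagre_image
        hM
    refine h2.mono ?_
    rintro x ⟨_, hx⟩
    exact hx
  · refine IsMeagre.empty.mono ?_
    rintro x ⟨h, _⟩
    exact (htH h).elim

/-- Let `s` be a continuous family of elements of `HamBar n`, parametrized by a Polish space and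
closed under inverses, and let `L` be a subgroup of the subgroup generated by it. If `L` is not
meagre for radii close to `1`, then the family generates `HamBar n`. -/
theorem top_of_nonmeagre {P : Type*} [TopologicalSpace P] [PolishSpace P] {s : P → G n}
    (hs : Continuous fun p => res (s p)) (hsym : ∀ p, ∃ p', s p' = (s p)⁻¹)
    {L : Subgroup (G n)} (hL : L ≤ Subgroup.closure (range s))
    (hM : ∀ R₀ : ℝ, R₀ < 1 → ∃ R : ℝ, R₀ < R ∧ R < 1 ∧ ¬ IsMeagre (NX L R)) :
    Subgroup.closure (range s) = ⊤ := by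
  apply top_of_small
  intro R' hR'0 hR'1
  obtain ⟨R, hR, hR1, hMR⟩ := hM R' hR'1
  have hR0 : 0 ≤ R := hR'0.le.trans hR.le
  rw [meagre_iff hR0 hR1] at hMR
  set Hs : Subgroup (HG (Zn n)) := (Gn n R).map res with hHs
  have hHcl : IsClosed (Hs : Set (HG (Zn n))) := closed_Gn hR0 hR1
  set B : ℕ → Set Hs := fun N => {h : Hs | ∃ p : Fin N → P,
    word (fun p => res (s p)) p = (h : HG (Zn n))} with hB
  obtain ⟨N, hN⟩ : ∃ N, ¬ IsMeagre (B N) := by
    by_contra hcon
    push Not at hcon
    refine hMR ((isMeagre_iUnion hcon).mono ?_)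
    rintro p ⟨g, hg, hgp⟩
    have hw' : g ∈ Submonoid.closure (range s) := by
      have h5 : (Subgroup.closure (range s)).toSubmonoid = Submonoid.closure (range s) := by
        rw [Subgroup.closure_toSubmonoid]
        congr 1
        rw [union_eq_left]
        intro x hx
        obtain ⟨q, hq⟩ := hx
        obtain ⟨q', hq'⟩ := hsym q
        exact ⟨q', by rw [hq', hq, inv_inv]⟩
      rw [← h5]
      exact hL hg
    obtain ⟨l, hl, hlp⟩ := Submonoid.exists_list_of_mem_closure hw'
    choose f hf using fun i : Fin l.length => hl (l.get i) (List.get_mem l i)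
    rw [mem_iUnion]
    refine ⟨l.length, f, ?_⟩
    rw [← hgp, ← hlp, map_list_prod, word]
    congr 1
    have h2 : (List.finRange l.length).map (fun i => res (s (f i))) =
        (List.finRange l.length).map (fun i => res (l.get i)) := by
      apply List.map_congr_left
      intro i _
      rw [hf i]
    rw [h2]
    conv_rhs => rw [← List.map_get_finRange l]
    rw [List.map_map]
    rfl
  obtain ⟨U, hU, hw⟩ := Pool.Agent.W_68f289_h51.baire_part (word_continuous hs N) Hs hHcl (B N) hN
    {1} (countable_singleton 1) (by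
      rintro h ⟨p, hp⟩
      exact ⟨1, rfl, p, by rw [one_mul]; exact hp.symm⟩)
  obtain ⟨ε, hε, h1⟩ := HG.small_mem_nhds hU
  refine ⟨ε, hε, fun g hg hgs => ?_⟩
  have hg' : g ∈ Gn n R := Gn_mono hR'0.le hR.le hg
  obtain ⟨p, q, hpq⟩ := hw (res g) (h1 _ fun z => hgs z) ⟨g, hg', rfl⟩
  have hword : ∀ p : Fin N → P, ∃ w ∈ Subgroup.closure (range s),
      res w = word (fun p => res (s p)) p := by
    intro p
    refine ⟨((List.finRange N).map fun i => s (p i)).prod, ?_, ?_⟩
    · refine Subgroup.list_prod_mem _ fun a ha => ?_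
      obtain ⟨i, _, rfl⟩ := List.mem_map.1 ha
      exact Subgroup.subset_closure ⟨_, rfl⟩
    · rw [map_list_prod, List.map_map]
      rfl
  obtain ⟨v, hv, hvp⟩ := hword p
  obtain ⟨w, hw', hwq⟩ := hword q
  have e : g = v⁻¹ * w := by
    apply res_inj
    rw [map_mul, map_inv, hvp, hwq]
    exact hpq
  rw [e]
  exact Subgroup.mul_mem _ (Subgroup.inv_mem _ hv) hw'

end Pool.Agent.W_68f289_h51n
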