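import Pool.Agent.W_68f289_h51n.Gc0

/-!
The commutator subgroup and the normal closures of countable sets.
-/

open Set Metric Topology Filter commutatorElement

namespace Pool.Agent.W_68f289_h51n

open Pool.Agent.W_MP_68f289_gt

variable {n : ℕ} {R : ℝ}

theorem com_top (hM : ∀ R₀ : ℝ, R₀ < 1 → ∃ R : ℝ, R₀ < R ∧ R < 1 ∧
    ¬ IsMeagre (NX (commutator (G n)) R)) : commutator (G n) = ⊤ := by
  set s : PG n × PG n → G n := fun p => ⁅gp p.1, gp p.2⁆ with hs
  have hr : range s = Com n := by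
    ext g
    constructor
    · rintro ⟨p, rfl⟩
      exact ⟨gp p.1, gp p.2, rfl⟩
    · rintro ⟨a, b, rfl⟩
      obtain ⟨p, rfl⟩ := gp_surj a
      obtain ⟨q, rfl⟩ := gp_surj b
      exact ⟨(p, q), rfl⟩
  have hcont : Continuous fun p => res (s p) := by
    have e : (fun p => res (s p)) = fun p : PG n × PG n =>
        res (gp p.1) * res (gp p.2) * (res (gp p.1))⁻¹ * (res (gp p.2))⁻¹ := by
      funext p
      rw [hs]
      simp only
      rw [map_commutatorElement, commutatorElement_def]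
    rw [e]
    have h1 : Continuous fun p : PG n × PG n => res (gp p.1) := gp_cont.comp continuous_fst
    have h2 : Continuous fun p : PG n × PG n => res (gp p.2) := gp_cont.comp continuous_snd
    exact ((h1.mul h2).mul h1.inv).mul h2.inv
  have hcl : Subgroup.closure (range s) = commutator (G n) := by rw [hr, closure_Com]
  rw [← hcl]
  exact top_of_nonmeagre hcont (fun p => ⟨(p.2, p.1), (commutatorElement_inv _ _).symm⟩)
    (L := commutator (G n)) (by rw [hcl]) hM

theorem conj_top {T : Set (G n)} (hT : T.Countable) (hM : ∀ R₀ : ℝ, R₀ < 1 → ∃ R : ℝ, R₀ < R ∧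
    R < 1 ∧ ¬ IsMeagre (NX (Subgroup.normalClosure T) R)) : Subgroup.normalClosure T = ⊤ := by
  have : Countable T := hT
  let _ : TopologicalSpace T := ⊥
  have : DiscreteTopology T := ⟨rfl⟩
  set s : ((T × Bool) × PG n) → G n := fun p =>
    gp p.2 * (if p.1.2 then (p.1.1 : G n) else (p.1.1 : G n)⁻¹) * (gp p.2)⁻¹ with hs
  have hr : range s = Conj T := by
    ext g
    constructor
    · rintro ⟨⟨⟨t, b⟩, p⟩, rfl⟩
      refine ⟨t, t.2, gp p, ?_⟩
      cases b
      · exact Or.inr rfl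
      · exact Or.inl rfl
    · rintro ⟨t, ht, a, rfl | rfl⟩
      · obtain ⟨p, rfl⟩ := gp_surj a
        exact ⟨((⟨t, ht⟩, true), p), rfl⟩
      · obtain ⟨p, rfl⟩ := gp_surj a
        exact ⟨((⟨t, ht⟩, false), p), rfl⟩
  have hcont : Continuous fun p => res (s p) := by
    have e : (fun p => res (s p)) = fun p : (T × Bool) × PG n =>
        res (gp p.2) * res (if p.1.2 then (p.1.1 : G n) else (p.1.1 : G n)⁻¹) *
          (res (gp p.2))⁻¹ := by
      funext p
      rw [hs]
      simp only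
      rw [map_mul, map_mul, map_inv]
    rw [e]
    have h1 : Continuous fun p : (T × Bool) × PG n => res (gp p.2) := gp_cont.comp continuous_snd
    have h2 : Continuous fun p : (T × Bool) × PG n =>
        res (if p.1.2 then (p.1.1 : G n) else (p.1.1 : G n)⁻¹) :=
      (continuous_of_discreteTopology (f := fun q : T × Bool =>
        res (if q.2 then (q.1 : G n) else (q.1 : G n)⁻¹))).comp continuous_fst
    exact (h1.mul h2).mul h1.inv
  have hcl : Subgroup.closure (range s) = Subgroup.normalClosure T := by rw [hr, closure_Conj]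
  rw [← hcl]
  refine top_of_nonmeagre hcont ?_ (L := Subgroup.normalClosure T) (by rw [hcl]) hM
  rintro ⟨⟨t, b⟩, p⟩
  refine ⟨((t, !b), p), ?_⟩
  cases b
  · simp only [hs, Bool.not_false, if_true, Bool.false_eq_true, if_false]
    group
  · simp only [hs, Bool.not_true, if_true, Bool.false_eq_true, if_false]
    group

/-- the hameomorphisms -/
theorem hameo_top (hM : ∀ R₀ : ℝ, R₀ < 1 → ∃ R : ℝ, R₀ < R ∧ R < 1 ∧
    ¬ IsMeagre (NX ((Hameo n).subgroupOf (HamBar n)) R)) :
    (Hameo n).subgroupOf (HamBar n) = ⊤ := by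
  have h1 : Hameo n = HamBar n := by
    refine (Pool.Agent.W_68f289_h51.generic_criterion n).2 fun R₀ hR₀ => ?_
    obtain ⟨R, h2, h3, h4⟩ := hM R₀ hR₀
    refine ⟨R, h2, h3, fun h5 => h4 (h5.mono ?_)⟩
    rintro f ⟨g, hg, hf⟩
    exact ⟨(g : E n ≃ₜ E n), hg, hf⟩
  rw [h1, eq_top_iff]
  intro g _
  exact Subgroup.mem_subgroupOf.2 g.2

/-- From the implication for meagre sets to the three equivalent properties. -/
theorem tfae_of {N : Subgroup (G n)} (h : (∀ R₀ : ℝ, R₀ < 1 → ∃ R : ℝ, R₀ < R ∧ R < 1 ∧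
    ¬ IsMeagre (NX N R)) → N = ⊤) :
    [N = ⊤, Countable (G n ⧸ N),
      ¬ ∃ R₀ : ℝ, R₀ < 1 ∧ ∀ R : ℝ, R₀ < R → R < 1 → IsMeagre (NX N R)].TFAE := by
  tfae_have 1 → 2 := by
    rintro rfl
    exact countable_top
  tfae_have 2 → 3 := by
    rintro hc ⟨R₀, hR₀, hM⟩
    have h1 : max R₀ 0 < 1 := max_lt hR₀ zero_lt_one
    have h2 := le_max_left R₀ 0
    have h3 := le_max_right R₀ 0
    exact nonmeagre_of_countable hc (R := (max R₀ 0 + 1) / 2) (by linarith) (by linarith)
      (hM _ (by linarith) (by linarith))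
  tfae_have 3 → 1 := by
    intro h3
    refine h fun R₀ hR₀ => ?_
    push Not at h3
    obtain ⟨R, h4, h5, h6⟩ := h3 R₀ hR₀
    exact ⟨R, h4, h5, h6⟩
  tfae_finish

end Pool.Agent.W_68f289_h51n
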