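import Pool.Agent.W_68f289_h51n.Gc0

/-!
The fragmentable elements.
-/

open Set Metric Topology Filter commutatorElement

namespace Pool.Agent.W_68f289_h51n

open Pool.Agent.W_MP_68f289_gt

variable {n : ℕ} {R : ℝ}

theorem fe_top {δ : ℝ} (hδ : 0 < δ) {L : Subgroup (G n)} (hL : L ≤ Fe (HamBar n) (E n) (δ / 2))
    (hM : ∀ R₀ : ℝ, R₀ < 1 → ∃ R : ℝ, R₀ < R ∧ R < 1 ∧ ¬ IsMeagre (NX L R)) :
    Fe (HamBar n) (E n) δ = ⊤ := by
  set c : ℕ → E n := TopologicalSpace.denseSeq (E n) with hcs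
  set C : ℕ → Set (HG (Zn n)) := fun j => {p | ∀ z : Zn n, (z : E n) ∉ ball (c j) δ →
    p.1.1 z = z} with hC
  have hCc : ∀ j, IsClosed (C j) := by
    intro j
    have e : C j = ⋂ z : {z : Zn n // (z : E n) ∉ ball (c j) δ}, {p | p.1.1 z.1 = z.1} := by
      ext p
      simp only [hC, mem_iInter, Subtype.forall]
      exact Iff.rfl
    rw [e]
    refine isClosed_iInter fun z => isClosed_eq ?_ continuous_const
    exact (ContinuousEvalConst.continuous_eval_const z.1).comp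
      (continuous_fst.comp continuous_subtype_val)
  have hCoff : ∀ (g : G n) (j : ℕ), res g ∈ C j ↔ Off g (ball (c j) δ) := by
    intro g j
    constructor
    · intro h x hx
      by_cases hx' : x ∈ CB n 1
      · exact congrArg Subtype.val (h ⟨x, hx'⟩ hx)
      · exact off_Bl g x fun h => hx' (Bl_sub_CB h)
    · intro h z hz
      exact Subtype.ext (h z hz)
  have := PS_polish hCc
  have hr : range (gp : PS C → G n) ⊆ Sup n δ := by
    rw [gp_range]
    rintro g ⟨j, hj⟩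
    exact ⟨c j, (hCoff g j).1 hj⟩
  have hle : Fe (HamBar n) (E n) (δ / 2) ≤ Subgroup.closure (range (gp : PS C → G n)) := by
    rw [Fe, Subgroup.closure_le]
    rintro a ⟨x, hx⟩
    apply Subgroup.subset_closure
    rw [gp_range]
    obtain ⟨j, hj⟩ := (TopologicalSpace.denseRange_denseSeq (E n)).exists_dist_lt x (half_pos hδ)
    refine ⟨j, (hCoff a j).2 (hx.mono fun y hy => ?_)⟩
    rw [mem_ball] at hy ⊢
    calc dist y (c j) ≤ dist y x + dist x (c j) := dist_triangle _ _ _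
      _ < δ / 2 + δ / 2 := add_lt_add hy hj
      _ = δ := add_halves δ
  have h1 : Subgroup.closure (range (gp : PS C → G n)) = ⊤ := by
    refine top_of_nonmeagre gp_cont (fun p => ?_) (hL.trans hle) hM
    have h2 : (gp p)⁻¹ ∈ range (gp : PS C → G n) := by
      have h3 : gp p ∈ range (gp : PS C → G n) := ⟨p, rfl⟩
      rw [gp_range] at h3 ⊢
      obtain ⟨j, hj⟩ := h3
      exact ⟨j, (hCoff _ j).2 ((hCoff _ j).1 hj).inv⟩
    exact h2
  rw [← closure_Sup, eq_top_iff, ← h1]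
  exact Subgroup.closure_mono hr

theorem fr_top (hM : ∀ R₀ : ℝ, R₀ < 1 → ∃ R : ℝ, R₀ < R ∧ R < 1 ∧
    ¬ IsMeagre (NX (FrL (HamBar n)) R)) : FrL (HamBar n) = ⊤ := by
  rw [eq_top_iff]
  intro g _
  show g ∈ ⨅ (ε : ℝ) (_ : 0 < ε), Subgroup.closure (SmallSupp (HamBar n) ε)
  rw [Subgroup.mem_iInf]
  intro ε
  rw [Subgroup.mem_iInf]
  intro hε
  have h1 : FrL (HamBar n) ≤ Fe (HamBar n) (E n) (ε / 2) := by
    intro a ha
    have h2 : a ∈ ⨅ (ε : ℝ) (_ : 0 < ε), Subgroup.closure (SmallSupp (HamBar n) ε) := ha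
    rw [Subgroup.mem_iInf] at h2
    have h3 := h2 (ε / 2)
    rw [Subgroup.mem_iInf] at h3
    exact h3 (half_pos hε)
  have h4 := fe_top hε h1 hM
  have h5 : g ∈ Fe (HamBar n) (E n) ε := by
    rw [h4]
    exact Subgroup.mem_top g
  exact h5

end Pool.Agent.W_68f289_h51n
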