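import Pool.Agent.W_68f289_h51n.Gc1
import Pool.Agent.W_68f289_h51n.Gc2

/-!
The criteria for the subgroups together.
-/

open Set Metric Topology Filter commutatorElement

namespace Pool.Agent.W_68f289_h51n

open Pool.Agent.W_MP_68f289_gt

variable {n : ℕ} {R : ℝ}

theorem com_iff (n : ℕ) : commutator (G n) = ⊤ ↔ BddGen n (Com n) := by
  refine ⟨fun h => bdd_Com (by rw [h]; exact countable_top), fun h => ?_⟩
  rw [← closure_Com]
  exact h.top

theorem conj_iff {T : Set (G n)} (hT : T.Countable) :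
    Subgroup.normalClosure T = ⊤ ↔ BddGen n (Conj T) := by
  refine ⟨fun h => bdd_Conj hT (by rw [h]; exact countable_top), fun h => ?_⟩
  rw [← closure_Conj]
  exact h.top

theorem fr_iff (n : ℕ) : FrL (HamBar n) = ⊤ ↔ ∀ δ : ℝ, 0 < δ → BddGen n (Sup n δ) := by
  constructor
  · intro h δ hδ
    refine bdd_Sup hδ ?_
    have h1 : Fe (HamBar n) (E n) (δ / 2) = ⊤ := by
      rw [eq_top_iff]
      intro g _
      have h2 : g ∈ FrL (HamBar n) := by
        rw [h]
        exact Subgroup.mem_top g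
      have h3 : g ∈ ⨅ (ε : ℝ) (_ : 0 < ε), Subgroup.closure (SmallSupp (HamBar n) ε) := h2
      rw [Subgroup.mem_iInf] at h3
      have h4 := h3 (δ / 2)
      rw [Subgroup.mem_iInf] at h4
      exact h4 (half_pos hδ)
    rw [h1]
    exact countable_top
  · intro h
    rw [eq_top_iff]
    intro g _
    show g ∈ ⨅ (ε : ℝ) (_ : 0 < ε), Subgroup.closure (SmallSupp (HamBar n) ε)
    rw [Subgroup.mem_iInf]
    intro ε
    rw [Subgroup.mem_iInf]
    intro hε
    have h1 : Subgroup.closure (Sup n ε) = ⊤ := (h ε hε).top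
    have h2 : g ∈ Subgroup.closure (Sup n ε) := by
      rw [h1]
      exact Subgroup.mem_top g
    exact h2

/-- the three equivalent properties -/
theorem subgroup_tfae {N : Subgroup (G n)} (hN : N = (Hameo n).subgroupOf (HamBar n) ∨
    N = commutator (G n) ∨ N = FrL (HamBar n) ∨
    ∃ T : Set (G n), T.Countable ∧ N = Subgroup.normalClosure T) :
    [N = ⊤, Countable (G n ⧸ N),
      ¬ ∃ R₀ : ℝ, R₀ < 1 ∧ ∀ R : ℝ, R₀ < R → R < 1 → IsMeagre (NX N R)].TFAE := by
  rcases hN with rfl | rfl | rfl | ⟨T, hT, rfl⟩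
  · exact tfae_of hameo_top
  · exact tfae_of com_top
  · exact tfae_of fr_top
  · exact tfae_of (conj_top hT)

end Pool.Agent.W_68f289_h51n
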